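import Mathlib
import Pool.Agent.H94.QDelannoyDefs
import Pool.Agent.H94.QDelannoyProof

open Finset LaurentPolynomial Pool.Agent.H94.QDel

namespace Pool.Agent.Results.MP_c68aab_nt.QDelannoyCongruence

lemma T_one_mul : (T 1 : ℤ[T;T⁻¹]) * T (-1) = 1 := by
  rw [← T_add]; simp

lemma one_sub_T_ne (n : ℕ) : (1 : ℤ[T;T⁻¹]) - T 1 ^ (n + 1) ≠ 0 := by
  intro h
  rw [sub_eq_zero, T_pow, ← T_zero] at h
  have h2 := AddMonoidAlgebra.single_left_injective (one_ne_zero : (1 : ℤ) ≠ 0) h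
  push_cast at h2
  omega

/-- **Q1 is true.**  For every odd prime `p` and every `m` (in particular every `m ≥ 1`):
`S_p(m) ≡ q (1 - q^{-2m})/(1 - q^2)` modulo `[p]^2` if `p ∣ m`,
`S_p(m) ≡ q (1 - q^{2m+2})/(1 - q^2)` modulo `[p]^2` if `p ∣ m + 1`, and
`S_p(m) ≡ 0` modulo `[p]^2` if `p ∤ m (m + 1)`; all in `ℤ[q, q⁻¹]`, `q = T 1`.
The quotients are given as the Laurent polynomial `E` with `(1 - q^2) E` equal to the numerator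
(unique because `ℤ[q, q⁻¹]` is a domain). -/
theorem result (p : ℕ) (hp : p.Prime) (hodd : p ≠ 2) (m : ℕ) :
    (p ∣ m → ∃ E : ℤ[T;T⁻¹], (1 - T 2) * E = T 1 * (1 - T (-(2 * (m : ℤ)))) ∧
      (qint (T 1) p) ^ 2 ∣ S p m - E) ∧
    (p ∣ m + 1 → ∃ E : ℤ[T;T⁻¹], (1 - T 2) * E = T 1 * (1 - T (2 * (m : ℤ) + 2)) ∧
      (qint (T 1) p) ^ 2 ∣ S p m - E) ∧
    (¬ p ∣ m * (m + 1) → (qint (T 1) p) ^ 2 ∣ S p m) := by
  obtain ⟨h, rfl⟩ : ∃ h, p = 2 * h + 1 := by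
    rcases hp.eq_two_or_odd' with h2 | ⟨h, hh⟩
    · exact absurd h2 hodd
    · exact ⟨h, hh⟩
  have hmain := main_dom (T 1 : ℤ[T;T⁻¹]) (T (-1)) T_one_mul one_sub_T_ne h hp m
  have hS : (∑ j ∈ range (2 * h + 1), qint (T 1 : ℤ[T;T⁻¹]) (2 * j + 1) * T (-1) ^ j *
      (qDelannoy (T 1) m j * qDelannoy (T (-1)) m j)) = S (2 * h + 1) m := by
    unfold S
    refine Finset.sum_congr rfl fun j _ => ?_
    rw [T_pow]; simp
  have e1 : (T 1 : ℤ[T;T⁻¹]) ^ 2 = T 2 := by rw [T_pow]; simp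
  have e2 : (T (-1) : ℤ[T;T⁻¹]) ^ (2 * m) = T (-(2 * (m : ℤ))) := by
    rw [T_pow]; push_cast; congr 1; ring
  have e3 : (T 1 : ℤ[T;T⁻¹]) ^ (2 * m + 2) = T (2 * (m : ℤ) + 2) := by
    rw [T_pow]; push_cast; congr 1; ring
  rw [hS, e1, e2, e3] at hmain
  exact hmain

end Pool.Agent.Results.MP_c68aab_nt.QDelannoyCongruence
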